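import Pool.Agent.H30.TauD

set_option autoImplicit false

namespace Pool.Agent.Results.MP_a930b8_gt.CH

open Pool.Agent.H30.Tau Cardinal

/-- Under the continuum hypothesis some set of reals satisfies `S₁(Ω, T)` but not
`S₁((O_n)_n, T)`. -/
theorem result (hc : (𝔠 : Cardinal.{0}) = ℵ₁) :
    ∃ X : Set ℝ, S1 (Z := X) Om Ta ∧ ¬ S1n (Z := X) Ta := by
  obtain ⟨X, h1, h2⟩ := exists_not_s1n hc
  obtain ⟨e, he⟩ := exists_emb
  exact ⟨e '' X, (h1.tr nt_om nt_ga (he.homeomorphImage X)).s1og.mono (fun _ => id) fun _ => Ga.ta,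
    fun h => h2 (h.tr (he.homeomorphImage X).symm)⟩

end Pool.Agent.Results.MP_a930b8_gt.CH
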