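import Pool.Agent.H30.TauH

set_option autoImplicit false

namespace Pool.Agent.Results.MP_a930b8_gt.Reduce

open Pool.Agent.H30.Tau Topology

/-- Some set of reals separates `S₁(Ω, T)` from `S₁((O_n)_n, T)` exactly when some `γ`-set is not
a strong `γ`-set. -/
theorem result :
    (∃ X : Set ℝ, S1 (Z := X) Om Ta ∧ ¬ S1n (Z := X) Ta) ↔
      ∃ X : Set ℝ, S1 (Z := X) Om Ga ∧ ¬ S1n (Z := X) Ga := by
  refine ⟨fun ⟨X, h1, h2⟩ => ⟨X, s1_OT h1, fun h => h2 fun 𝒰 h3 =>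
    let ⟨f, e1, e2⟩ := h 𝒰 h3; ⟨f, e1, e2.ta⟩⟩, fun ⟨X, h1, h2⟩ => ?_⟩
  obtain ⟨e, he⟩ := emb_bool
  have h3 : IsEmbedding (e ∘ Prod.map (Subtype.val : X → ℝ) id) :=
    he.comp (IsEmbedding.subtypeVal.prodMap IsEmbedding.id)
  exact ⟨_, (h1.ch.bool.tr nt_om nt_ga h3.toHomeomorph).s1og.mono (fun _ => id) fun _ => Ga.ta,
    fun h => h2 (h.tr h3.toHomeomorph.symm).bool⟩

end Pool.Agent.Results.MP_a930b8_gt.Reduce
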